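import Pool.Agent.U728.Lie.Stm

/-!
Project LA, package SOUND: soundness of the certificates.
-/

set_option autoImplicit false

namespace Pool.Agent.U643.LA

open MvPolynomial Pool.Agent.Helper967.AD Pool.Agent.Helper967.FL Pool.Agent.U728.Lie

universe u

section

variable {F : Type u} [Field F] [CharZero F]

theorem aeval_cg (p : MvPolynomial ℕ ℚ) (e e' : ℕ → F) (h : ∀ i ∈ p.vars, e i = e' i) :
    aeval e p = aeval e' p :=
  eval₂Hom_congr' rfl (fun i hi _ => h i hi) rfl

theorem H_cg {n m : ℕ} (hn : n < m) (e e' : ℕ → F) (h : ∀ i, i < m → e i = e' i) :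
    H e n ↔ H e' n := by
  unfold H
  rw [bevG_congr TF e TF e' n]
  intro c hc
  have h1 : aeval e (P c) = aeval e' (P c) := aeval_cg _ _ _ fun i hi => h i (by
    have := P_vars c i hi
    omega)
  rw [Bool.eq_iff_iff, TF_iff, TF_iff, h1]

theorem H_not (e : ℕ → F) (s : ℕ) : H e (negC s) ↔ ¬ H e s := by
  unfold H negC
  rw [bevG_not]
  simp

theorem H_and (e : ℕ → F) (s t : ℕ) : H e (andC s t) ↔ H e s ∧ H e t := by
  unfold H andC
  rw [bevG_and]
  simp

theorem H_or (e : ℕ → F) (s t : ℕ) : H e (orC s t) ↔ H e s ∨ H e t := by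
  unfold H orC
  have h0 := bevG_or (α := ℕ → F) TF e 0 s t
  rw [zero_add] at h0
  rw [h0]
  simp

theorem H_imp (e : ℕ → F) (s t : ℕ) : H e (impC s t) ↔ (H e s → H e t) := by
  unfold impC
  rw [H_or, H_not]
  tauto

theorem H_eq (e : ℕ → F) (s t : ℕ) : H e (eqC s t) ↔ aeval e (pol s) = aeval e (pol t) := by
  unfold H eqC
  rw [bevG_atom, TF_iff, P, Nat.unpair_pair, map_sub, sub_eq_zero]

/-- the polynomial in the variable `k` -/
noncomputable def uni (k : ℕ) (e : ℕ → F) (r : MvPolynomial ℕ ℚ) : Polynomial F :=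
  aeval (fun i => if i = k then Polynomial.X else Polynomial.C (e i)) r

theorem eval_uni (k : ℕ) (e : ℕ → F) (r : MvPolynomial ℕ ℚ) (x : F) :
    Polynomial.eval x (uni k e r) = aeval (Function.update e k x) r := by
  have h : (Polynomial.evalRingHom x).comp
      (aeval (R := ℚ) (fun i => if i = k then Polynomial.X else Polynomial.C (e i)) :
        MvPolynomial ℕ ℚ →ₐ[ℚ] Polynomial F).toRingHom =
      (aeval (R := ℚ) (Function.update e k x) : MvPolynomial ℕ ℚ →ₐ[ℚ] F).toRingHom := by
    apply MvPolynomial.ringHom_ext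
    · intro q
      simp
    · intro i
      by_cases hi : i = k
      · subst hi
        simp
      · simp [hi]
  exact congrArg (fun φ : MvPolynomial ℕ ℚ →+* F => φ r) h

end

/-- Package SOUND. -/
theorem t_SOUND (hS : S_SUB.{u}) : S_SOUND.{u} := by
  intro F _ _ _ σ k θ hW
  induction hW with
  | wit σ k θ t h =>
    intro e he
    have h1 := (H_imp e _ _).1 (h e) he
    exact ⟨_, ((hS.2.2 F e k t θ).2).1 h1⟩
  | cases σ σ₁ σ₂ k θ h h₁ h₂ ih₁ ih₂ =>
    intro e he
    rcases (H_or e _ _).1 ((H_imp e _ _).1 (h e) he) with h3 | h3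
    · exact ih₁ e h3
    · exact ih₂ e h3
  | root σ k θ p m a b hσ hθ hp hk h h' ih =>
    intro e he
    have h1 := (H_not e _).1 ((H_imp e _ _).1 (h e) he)
    rw [H_eq, (hS.2.2 F e k a p).1, (hS.2.2 F e k b p).1, ← eval_uni, ← eval_uni] at h1
    have hdeg : (uni k e (pol p)).degree ≠ 0 := by
      intro h0
      apply h1
      rw [Polynomial.eq_C_of_degree_eq_zero h0]
      simp
    obtain ⟨α, hα⟩ := IsAlgClosed.exists_root _ hdeg
    rw [Polynomial.IsRoot.def, eval_uni] at hα
    have hkm : k ≠ m := hk.ne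
    have hag : ∀ i, i < m → (Function.update e m α) i = e i := fun i hi =>
      Function.update_of_ne hi.ne _ _
    have hag2 : ∀ x i, i < m → (Function.update (Function.update e m α) k x) i =
        (Function.update e k x) i := by
      intro x i hi
      by_cases hik : i = k
      · subst hik
        rw [Function.update_self, Function.update_self]
      · rw [Function.update_of_ne hik, Function.update_of_ne hik, hag i hi]
    have h2 : H (Function.update e m α) (andC σ (eqC (subT (k, varC m) p) zeroC)) := by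
      rw [H_and, H_eq, (hS.2.2 F (Function.update e m α) k (varC m) p).1, pol_zeroC, map_zero,
        pol_varC, aeval_X, Function.update_self]
      refine ⟨(H_cg hσ _ _ hag).2 he, ?_⟩
      rw [← hα]
      exact aeval_cg _ _ _ fun i hi => hag2 α i (by
        have := pol_vars p i hi
        omega)
    obtain ⟨x, hx⟩ := ih _ h2
    exact ⟨x, (H_cg hθ _ _ (hag2 x)).1 hx⟩

end Pool.Agent.U643.LA
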